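import Mathlib

/-!
# Unions of length sets in reduced finitary power monoids are intervals (MP_43520b, Q1)

For every monoid `H` and every `k ≥ 1`, the set `𝓤_k(𝓟_{fin,1}(H))` is an interval; the theorem also
determines it exactly:

* `H` trivial: `𝓤_k = ∅`;
* some `x ≠ 1` has `x² = 1` or `x² = x`: `𝓤_k = {1,2,3,…}`;
* otherwise `𝓤_1 = {1}`, and for `k ≥ 2`: `𝓤_k = {2,3,…}` unless `H` is cyclic of order `5`, in which
  case `𝓤_2 = {2,3}`, `𝓤_3 = {2,3,…}` and `𝓤_k = {3,4,…}` for `k ≥ 4`.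
-/

open Pointwise

namespace Pool.Agent.Results.MP_43520b_al.Intervals

universe u

/-! ### Definitions -/

section General

variable {M : Type u} [Monoid M]

/-- `x ∣_M y`: `y ∈ M x M`. -/
def Divides (x y : M) : Prop := ∃ a b : M, y = a * x * b

/-- `x` is a unit-divisor: `x ∣_M 1`. -/
def UnitDivisor (x : M) : Prop := Divides x (1 : M)

/-- `x` is a proper divisor of `y`. -/
def ProperDivisor (x y : M) : Prop := Divides x y ∧ ¬ Divides y x

/-- `a` is an irreducible: a non-unit-divisor that is not a product of two proper divisors of `a`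
that are not unit-divisors. -/
def IsIrred (a : M) : Prop :=
  ¬ UnitDivisor a ∧
    ¬ ∃ b c : M, a = b * c ∧ ProperDivisor b a ∧ ProperDivisor c a ∧
      ¬ UnitDivisor b ∧ ¬ UnitDivisor c

/-- The length set `𝖫_M(x)`: the lengths of the words of irreducibles with product `x`
(for a unit-divisor `x` see `lengthSet_one` and `lengthSet_unitDivisor`: the usual conventions
hold automatically). -/
def LengthSet (x : M) : Set ℕ :=
  {m | ∃ w : List M, (∀ a ∈ w, IsIrred a) ∧ w.prod = x ∧ w.length = m}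

variable (M) in
/-- `𝓤_k(M)`: the union of the length sets that contain `k`. -/
def UnionLengths (k : ℕ) : Set ℕ := {m | ∃ x : M, k ∈ LengthSet x ∧ m ∈ LengthSet x}

theorem Divides.trans {x y z : M} (h1 : Divides x y) (h2 : Divides y z) : Divides x z := by
  obtain ⟨a, b, rfl⟩ := h1
  obtain ⟨c, d, rfl⟩ := h2
  exact ⟨c * a, b * d, by simp [mul_assoc]⟩

theorem divides_prod_of_mem {w : List M} {a : M} (ha : a ∈ w) : Divides a w.prod := by
  obtain ⟨s, t, rfl⟩ := List.append_of_mem ha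
  exact ⟨s.prod, t.prod, by simp [mul_assoc]⟩

/-- The convention for unit-divisors other than `1` holds. -/
theorem lengthSet_unitDivisor {x : M} (hx : UnitDivisor x) (h1 : x ≠ 1) : LengthSet x = ∅ := by
  ext m
  simp only [LengthSet, Set.mem_ofPred_eq, Set.mem_empty_iff_false, iff_false]
  rintro ⟨w, hw, rfl, -⟩
  cases w with
  | nil => exact h1 (by simp)
  | cons a w =>
    exact (hw a (by simp)).1 ((divides_prod_of_mem (by simp)).trans hx)

/-- The convention for `1` holds. -/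
theorem lengthSet_one : LengthSet (1 : M) = {0} := by
  ext m
  simp only [LengthSet, Set.mem_ofPred_eq, Set.mem_singleton_iff]
  constructor
  · rintro ⟨w, hw, h1, rfl⟩
    cases w with
    | nil => rfl
    | cons a w =>
      exfalso
      apply (hw a (by simp)).1
      have := divides_prod_of_mem (w := a :: w) (a := a) (by simp)
      rw [h1] at this
      exact this
  · rintro rfl
    exact ⟨[], by simp, by simp, by simp⟩

end General

/-- The reduced finitary power monoid `𝓟_{fin,1}(H)`: the finite subsets of `H` containing `1`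
under setwise multiplication. -/
def ReducedPower (H : Type u) [Monoid H] : Submonoid (Set H) where
  carrier := {X | X.Finite ∧ (1 : H) ∈ X}
  mul_mem' := by
    rintro X Y ⟨hX, hX1⟩ ⟨hY, hY1⟩
    exact ⟨hX.mul hY, ⟨1, hX1, 1, hY1, by simp⟩⟩
  one_mem' := ⟨Set.finite_one, Set.mem_one.2 rfl⟩

/-- `[[a,b]] = {x : a ≤ x ≤ b}` with `a b ∈ ℕ ∪ {∞}`. -/
def IsInterval (S : Set ℕ) : Prop := ∃ a b : ℕ∞, S = {x : ℕ | a ≤ (x : ℕ∞) ∧ (x : ℕ∞) ≤ b}

/-! ### Reformulation with plain sets -/

section Sets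

variable {H : Type u} [Monoid H]

/-- Irreducible, as a condition on sets. -/
def Irr (A : Set H) : Prop :=
  A.Finite ∧ (1 : H) ∈ A ∧ A ≠ 1 ∧
    ∀ B C : Set H, (1 : H) ∈ B → (1 : H) ∈ C → A = B * C → B ≠ 1 → C ≠ 1 → B = A ∨ C = A

/-- `HasLen m X`: `X` is a product of `m` irreducibles. -/
def HasLen : ℕ → Set H → Prop
  | 0, X => X = 1
  | (m + 1), X => ∃ A Y : Set H, Irr A ∧ HasLen m Y ∧ X = A * Y

theorem subset_mul_left {B C : Set H} (hC : (1 : H) ∈ C) : B ⊆ B * C := fun b hb =>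
  ⟨b, hb, 1, hC, by simp⟩

theorem subset_mul_right {B C : Set H} (hB : (1 : H) ∈ B) : C ⊆ B * C := fun c hc =>
  ⟨1, hB, c, hc, by simp⟩

theorem divides_subset {B A : ReducedPower H} (h : Divides B A) : (B : Set H) ⊆ (A : Set H) := by
  obtain ⟨P, Q, rfl⟩ := h
  have h1 : (B : Set H) ⊆ (P : Set H) * (B : Set H) := subset_mul_right P.2.2
  have h2 : (P : Set H) * (B : Set H) ⊆ (P : Set H) * (B : Set H) * (Q : Set H) :=
    subset_mul_left Q.2.2
  simpa using h1.trans h2

theorem unitDivisor_iff {B : ReducedPower H} : UnitDivisor B ↔ (B : Set H) = 1 := by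
  constructor
  · intro h
    have := divides_subset h
    apply Set.Subset.antisymm
    · simpa using this
    · intro x hx
      rw [Set.mem_one] at hx
      subst hx
      exact B.2.2
  · intro h
    have : B = 1 := Subtype.ext h
    subst this
    exact ⟨1, 1, by simp⟩

theorem isIrred_iff (A : ReducedPower H) : IsIrred A ↔ Irr (A : Set H) := by
  constructor
  · rintro ⟨h1, h2⟩
    refine ⟨A.2.1, A.2.2, fun h => h1 (unitDivisor_iff.2 h), ?_⟩
    intro B C hB hC hA hB1 hC1
    by_contra hcon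
    push Not at hcon
    have hBf : B.Finite := A.2.1.subset (by rw [hA]; exact subset_mul_left hC)
    have hCf : C.Finite := A.2.1.subset (by rw [hA]; exact subset_mul_right hB)
    apply h2
    refine ⟨⟨B, hBf, hB⟩, ⟨C, hCf, hC⟩, Subtype.ext hA, ⟨?_, ?_⟩, ⟨?_, ?_⟩, ?_, ?_⟩
    · exact ⟨1, ⟨C, hCf, hC⟩, by rw [one_mul]; exact Subtype.ext hA⟩
    · intro h
      have := divides_subset h
      apply hcon.1
      exact Set.Subset.antisymm (by rw [hA]; exact subset_mul_left hC) this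
    · exact ⟨⟨B, hBf, hB⟩, 1, by rw [mul_one]; exact Subtype.ext hA⟩
    · intro h
      have := divides_subset h
      apply hcon.2
      exact Set.Subset.antisymm (by rw [hA]; exact subset_mul_right hB) this
    · rw [unitDivisor_iff]; exact hB1
    · rw [unitDivisor_iff]; exact hC1
  · rintro ⟨-, -, h1, h2⟩
    refine ⟨fun h => h1 (unitDivisor_iff.1 h), ?_⟩
    rintro ⟨B, C, hA, hB, hC, hB1, hC1⟩
    rw [unitDivisor_iff] at hB1 hC1
    rcases h2 (B : Set H) (C : Set H) B.2.2 C.2.2 (by rw [hA]; rfl) hB1 hC1 with h | h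
    · apply hB.2
      have : B = A := Subtype.ext h
      rw [this]
      exact ⟨1, 1, by simp⟩
    · apply hC.2
      have : C = A := Subtype.ext h
      rw [this]
      exact ⟨1, 1, by simp⟩

theorem mem_lengthSet_iff (m : ℕ) (X : ReducedPower H) : m ∈ LengthSet X ↔ HasLen m (X : Set H) := by
  induction m generalizing X with
  | zero =>
    constructor
    · rintro ⟨w, -, hw, hl⟩
      rw [List.length_eq_zero_iff] at hl
      subst hl
      simp only [List.prod_nil] at hw
      rw [← hw]; rfl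
    · intro h
      have h' : (X : Set H) = ((1 : ReducedPower H) : Set H) := h
      exact ⟨[], by simp, by simp only [List.prod_nil]; exact (Subtype.ext h').symm, rfl⟩
  | succ m ih =>
    constructor
    · rintro ⟨w, hw, hp, hl⟩
      cases w with
      | nil => simp at hl
      | cons A w =>
        refine ⟨(A : Set H), ((w.prod : ReducedPower H) : Set H), ?_, ?_, ?_⟩
        · exact (isIrred_iff A).1 (hw A (by simp))
        · rw [← ih]
          exact ⟨w, fun a ha => hw a (by simp [ha]), rfl, by simpa using hl⟩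
        · rw [← hp]; simp
    · rintro ⟨A, Y, hA, hY, hX⟩
      have hYm : Y.Finite ∧ (1 : H) ∈ Y := by
        clear hX ih
        clear hA A
        induction m generalizing Y with
        | zero => rw [show Y = 1 from hY]; exact ⟨Set.finite_one, Set.mem_one.2 rfl⟩
        | succ m ih =>
          obtain ⟨A', Y', hA', hY', rfl⟩ := hY
          obtain ⟨h1, h2⟩ := ih Y' hY'
          exact ⟨hA'.1.mul h1, ⟨1, hA'.2.1, 1, h2, by simp⟩⟩
      have h3 := (ih ⟨Y, hYm⟩).2 hY
      obtain ⟨w, hw, hp, hl⟩ := h3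
      refine ⟨⟨A, hA.1, hA.2.1⟩ :: w, ?_, ?_, ?_⟩
      · intro a ha
        rcases List.mem_cons.1 ha with rfl | ha
        · exact (isIrred_iff _).2 hA
        · exact hw a ha
      · rw [List.prod_cons, hp]
        exact (Subtype.ext hX).symm
      · simp [hl]

theorem HasLen.fin {m : ℕ} {X : Set H} (h : HasLen m X) : X.Finite ∧ (1 : H) ∈ X := by
  induction m generalizing X with
  | zero => rw [show X = 1 from h]; exact ⟨Set.finite_one, Set.mem_one.2 rfl⟩
  | succ m ih =>
    obtain ⟨A', Y', hA', hY', rfl⟩ := h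
    obtain ⟨h1, h2⟩ := ih hY'
    exact ⟨hA'.1.mul h1, ⟨1, hA'.2.1, 1, h2, by simp⟩⟩

theorem mem_union_iff (k m : ℕ) :
    m ∈ UnionLengths (ReducedPower H) k ↔ ∃ X : Set H, HasLen k X ∧ HasLen m X := by
  constructor
  · rintro ⟨X, h1, h2⟩
    exact ⟨X, (mem_lengthSet_iff _ _).1 h1, (mem_lengthSet_iff _ _).1 h2⟩
  · rintro ⟨X, h1, h2⟩
    exact ⟨⟨X, h1.fin⟩, (mem_lengthSet_iff _ _).2 h1, (mem_lengthSet_iff _ _).2 h2⟩

theorem HasLen.mul {m n : ℕ} {X Y : Set H} (h1 : HasLen m X) (h2 : HasLen n Y) :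
    HasLen (m + n) (X * Y) := by
  induction m generalizing X with
  | zero => rw [show X = 1 from h1, one_mul, Nat.zero_add]; exact h2
  | succ m ih =>
    obtain ⟨A', Y', hA', hY', rfl⟩ := h1
    have := ih hY'
    rw [show m + 1 + n = (m + n) + 1 by ring]
    exact ⟨A', Y' * Y, hA', this, by rw [mul_assoc]⟩

theorem hasLen_one_iff {X : Set H} : HasLen 1 X ↔ Irr X := by
  constructor
  · rintro ⟨A, Y, hA, hY, rfl⟩
    rw [show Y = 1 from hY, mul_one]; exact hA
  · intro h
    exact ⟨X, 1, h, rfl, by simp⟩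

theorem eq_one_of_subset {A : Set H} (h1 : (1 : H) ∈ A) (h : A ⊆ 1) : A = 1 := by
  apply Set.Subset.antisymm h
  intro x hx
  rw [Set.mem_one] at hx
  subst hx
  exact h1

theorem hasLen_ne_one {k : ℕ} {X : Set H} (h : HasLen (k + 1) X) : X ≠ 1 := by
  obtain ⟨A, Y, hA, hY, rfl⟩ := h
  intro hx
  apply hA.2.2.1
  apply eq_one_of_subset hA.2.1
  rw [← hx]
  exact subset_mul_left hY.fin.2

theorem ne_one_of_mem {A : Set H} {x : H} (hx : x ∈ A) (h1 : x ≠ 1) : A ≠ 1 := by
  rintro rfl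
  exact h1 (Set.mem_one.1 hx)

theorem exists_ne_one {A : Set H} (h1 : (1 : H) ∈ A) (h : A ≠ 1) : ∃ x ∈ A, x ≠ 1 := by
  by_contra hcon
  push Not at hcon
  exact h (eq_one_of_subset h1 fun x hx => Set.mem_one.2 (hcon x hx))

theorem irr_pair {x : H} (hx : x ≠ 1) : Irr ({1, x} : Set H) := by
  refine ⟨by simp, by simp, ne_one_of_mem (x := x) (by simp) hx, ?_⟩
  intro B C hB hC hA hB1 hC1
  left
  have hBs : B ⊆ {1, x} := by rw [hA]; exact subset_mul_left hC
  obtain ⟨y, hy, hy1⟩ := exists_ne_one hB hB1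
  have : y = x := by
    rcases hBs hy with h | h
    · exact absurd h hy1
    · exact h
  subst this
  apply Set.Subset.antisymm hBs
  rintro z (rfl | rfl)
  · exact hB
  · exact hy

theorem zero_not_mem {k : ℕ} (hk : 1 ≤ k) : ¬ ∃ X : Set H, HasLen k X ∧ HasLen 0 X := by
  rintro ⟨X, h1, h2⟩
  obtain ⟨j, rfl⟩ : ∃ j, k = j + 1 := ⟨k - 1, by omega⟩
  exact hasLen_ne_one h1 h2

/-- If `X` is a product of two irreducibles and absorbs `{1,c}` on the right, it has all lengths
`≥ 2`. -/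
theorem hasLen_of_absorb {X : Set H} {j : ℕ} (h2 : HasLen j X) {c : H} (hc : c ≠ 1)
    (h : X * {1, c} = X ∨ {1, c} * X = X) (k : ℕ) (hk : j ≤ k) : HasLen k X := by
  induction k, hk using Nat.le_induction with
  | base => exact h2
  | succ k _ ih =>
    rcases h with h | h
    · rw [← h]
      exact ih.mul (hasLen_one_iff.2 (irr_pair hc))
    · rw [← h, Nat.add_comm]
      exact (hasLen_one_iff.2 (irr_pair hc)).mul ih

end Sets

/-! ### Case A -/

section CaseA

variable {H : Type u} [Monoid H]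

theorem union_caseA (h : ∃ x : H, x ≠ 1 ∧ (x * x = 1 ∨ x * x = x)) {k : ℕ} (hk : 1 ≤ k) :
    UnionLengths (ReducedPower H) k = {m | 1 ≤ m} := by
  obtain ⟨x, hx, hxx⟩ := h
  have hP : ({1, x} : Set H) * {1, x} = {1, x} := by
    apply Set.Subset.antisymm
    · rintro _ ⟨a, ha, b, hb, rfl⟩
      rcases ha with rfl | ha
      · simpa using hb
      · rcases hb with rfl | hb
        · simp only [mul_one]; exact Or.inr ha
        · rw [show a = x from ha, show b = x from hb]
          rcases hxx with h | h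
          · left; exact h
          · right; exact h
    · exact subset_mul_left (by simp)
  ext m
  rw [mem_union_iff]
  constructor
  · intro h
    by_contra hm
    have hm0 : m = 0 := by
      simp only [Set.mem_ofPred_eq] at hm
      omega
    subst hm0
    exact zero_not_mem hk h
  · intro hm
    have key := fun k => hasLen_of_absorb (hasLen_one_iff.2 (irr_pair hx)) hx (Or.inl hP) k
    exact ⟨{1, x}, key k hk, key m hm⟩

end CaseA

/-! ### Case B -/

section CaseB

variable {H : Type u} [Monoid H]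

/-- Idempotent power of a nonfree element. -/
theorem exists_pow_eq_one (hB : ∀ x : H, x ≠ 1 → x * x ≠ 1 ∧ x * x ≠ x) (x : H)
    (hx : ¬ Function.Injective (fun n : ℕ => x ^ n)) : ∃ n : ℕ, 0 < n ∧ x ^ n = 1 := by
  rw [Function.Injective] at hx
  push Not at hx
  obtain ⟨i, j, hij, hne⟩ := hx
  wlog hlt : i < j generalizing i j
  · exact this j i hij.symm hne.symm (by omega)
  obtain ⟨d, rfl⟩ := Nat.exists_eq_add_of_lt hlt
  set e := d + 1 with he
  have h0 : x ^ i = x ^ (i + e) := by simpa [he, add_assoc] using hij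
  have h1 : ∀ n, i ≤ n → x ^ (n + e) = x ^ n := by
    intro n hn
    obtain ⟨t, rfl⟩ := Nat.exists_eq_add_of_le hn
    rw [show i + t + e = (i + e) + t by ring, pow_add, ← h0, ← pow_add]
  have h2 : ∀ t n, i ≤ n → x ^ (n + t * e) = x ^ n := by
    intro t
    induction t with
    | zero => intro n _; simp
    | succ t ih =>
      intro n hn
      rw [show n + (t + 1) * e = (n + t * e) + e by ring, h1 _ (by omega), ih n hn]
  refine ⟨(i + 1) * e, by positivity, ?_⟩
  by_contra hne1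
  apply (hB _ hne1).2
  rw [← pow_add, h2 (i + 1) ((i + 1) * e)]
  calc i ≤ i + 1 := by omega
    _ = (i + 1) * 1 := by ring
    _ ≤ (i + 1) * e := Nat.mul_le_mul_left _ (by omega)

theorem odd_order (hB : ∀ x : H, x ≠ 1 → x * x ≠ 1 ∧ x * x ≠ x) (x : H)
    (hx : ∃ n : ℕ, 0 < n ∧ x ^ n = 1) : 0 < orderOf x ∧ orderOf x % 2 = 1 := by
  have hpos : 0 < orderOf x := orderOf_pos_iff.2 (isOfFinOrder_iff_pow_eq_one.2 hx)
  refine ⟨hpos, ?_⟩
  by_contra hodd
  have heven : orderOf x = orderOf x / 2 + orderOf x / 2 := by omega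
  have h1 : x ^ (orderOf x / 2) ≠ 1 := by
    apply pow_ne_one_of_lt_orderOf
    · omega
    · omega
  apply (hB _ h1).1
  rw [← pow_add, ← heven, pow_orderOf_eq_one]

/-- Elements of a finite set stabilised by a translation have finite order. -/
theorem finOrder_of_absorb (hB : ∀ x : H, x ≠ 1 → x * x ≠ 1 ∧ x * x ≠ x) {A : Set H} (hA : A.Finite)
    {z : H} (h : ∀ n : ℕ, z ^ n ∈ A) : ∃ n : ℕ, 0 < n ∧ z ^ n = 1 := by
  apply exists_pow_eq_one hB
  intro hinj
  exact Set.infinite_of_injective_forall_mem hinj h hA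

theorem irr_absorb_right (hB : ∀ x : H, x ≠ 1 → x * x ≠ 1 ∧ x * x ≠ x) {A C : Set H} (hA : Irr A)
    (hC : (1 : H) ∈ C) (h : A * C = A) : C = 1 := by
  by_contra hC1
  obtain ⟨z, hz, hz1⟩ := exists_ne_one hC hC1
  have hmul : ∀ a ∈ A, a * z ∈ A := fun a ha => by rw [← h]; exact ⟨a, ha, z, hz, rfl⟩
  have hpow : ∀ (n : ℕ) (a : H), a ∈ A → a * z ^ n ∈ A := by
    intro n
    induction n with
    | zero => intro a ha; simpa using ha
    | succ n ih =>
      intro a ha
      rw [pow_succ, ← mul_assoc]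
      exact hmul _ (ih a ha)
  have hzA : ∀ n : ℕ, z ^ n ∈ A := fun n => by simpa using hpow n 1 hA.2.1
  have hfin := finOrder_of_absorb hB hA.1 hzA
  obtain ⟨hpos, hodd⟩ := odd_order hB z hfin
  have hn1 : orderOf z ≠ 1 := fun h => hz1 (orderOf_eq_one_iff.1 h)
  have hz2 : z * z ≠ 1 := (hB z hz1).1
  have hz3 : z * z ≠ z := (hB z hz1).2
  obtain ⟨n, hn⟩ : ∃ n, orderOf z = n + 3 := ⟨orderOf z - 3, by omega⟩
  have hzn : z ^ (n + 3) = 1 := by rw [← hn]; exact pow_orderOf_eq_one z
  set K : Set H := Set.range (fun n : ℕ => z ^ n) with hK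
  have hKA : K ⊆ A := by rintro _ ⟨n, rfl⟩; exact hzA n
  have h1K : (1 : H) ∈ K := ⟨0, by simp⟩
  have hzK : z ∈ K := ⟨1, by simp⟩
  have hK1 : K ≠ 1 := ne_one_of_mem hzK hz1
  set B : Set H := A \ {z} with hBdef
  have h1B : (1 : H) ∈ B := ⟨hA.2.1, fun h => hz1 h.symm⟩
  have hzzB : z * z ∈ B := ⟨by simpa [pow_two] using hzA 2, hz3⟩
  have hBne : B ≠ 1 := ne_one_of_mem hzzB hz2
  have hBA : B ≠ A := by
    intro h
    have : z ∈ B := by rw [h]; exact hKA hzK
    exact this.2 rfl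
  by_cases hKe : K = A
  · -- `A = K`: use `(K \ {z}) * (K \ {z})`
    have hAB : A = B * B := by
      apply Set.Subset.antisymm
      · intro g hg
        by_cases hgz : g = z
        · -- `z = z^2 * z^(n+2)`
          subst hgz
          refine ⟨g * g, hzzB, g ^ (n + 2), ⟨hzA _, ?_⟩, ?_⟩
          · intro hcon
            have hcon : g ^ (n + 2) = g := hcon
            apply hz2
            rw [← hzn, pow_succ, hcon]
          · show g * g * g ^ (n + 2) = g
            rw [mul_assoc, ← pow_succ' g (n + 2), hzn, mul_one]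
        · exact ⟨g, ⟨hg, hgz⟩, 1, h1B, by simp⟩
      · rintro _ ⟨a, ha, b, hb, rfl⟩
        have hb' : b ∈ K := by rw [hKe]; exact hb.1
        obtain ⟨m, rfl⟩ := hb'
        exact hpow m a ha.1
    rcases hA.2.2.2 B B h1B h1B hAB hBne hBne with h | h
    · exact hBA h
    · exact hBA h
  · have hAB : A = B * K := by
      apply Set.Subset.antisymm
      · intro g hg
        by_cases hgz : g = z
        · subst hgz
          exact ⟨1, h1B, g, hzK, by simp⟩
        · exact ⟨g, ⟨hg, hgz⟩, 1, h1K, by simp⟩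
      · rintro _ ⟨a, ha, _, ⟨m, rfl⟩, rfl⟩
        exact hpow m a ha.1
    rcases hA.2.2.2 B K h1B h1K hAB hBne hK1 with h | h
    · exact hBA h
    · exact hKe h

theorem irr_absorb_left (hB : ∀ x : H, x ≠ 1 → x * x ≠ 1 ∧ x * x ≠ x) {A C : Set H} (hA : Irr A)
    (hC : (1 : H) ∈ C) (h : C * A = A) : C = 1 := by
  by_contra hC1
  obtain ⟨z, hz, hz1⟩ := exists_ne_one hC hC1
  have hmul : ∀ a ∈ A, z * a ∈ A := fun a ha => by rw [← h]; exact ⟨z, hz, a, ha, rfl⟩
  have hpow : ∀ (n : ℕ) (a : H), a ∈ A → z ^ n * a ∈ A := by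
    intro n
    induction n with
    | zero => intro a ha; simpa using ha
    | succ n ih =>
      intro a ha
      rw [pow_succ', mul_assoc]
      exact hmul _ (ih a ha)
  have hzA : ∀ n : ℕ, z ^ n ∈ A := fun n => by simpa using hpow n 1 hA.2.1
  have hfin := finOrder_of_absorb hB hA.1 hzA
  obtain ⟨hpos, hodd⟩ := odd_order hB z hfin
  have hn1 : orderOf z ≠ 1 := fun h => hz1 (orderOf_eq_one_iff.1 h)
  have hz2 : z * z ≠ 1 := (hB z hz1).1
  have hz3 : z * z ≠ z := (hB z hz1).2
  obtain ⟨n, hn⟩ : ∃ n, orderOf z = n + 3 := ⟨orderOf z - 3, by omega⟩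
  have hzn : z ^ (n + 3) = 1 := by rw [← hn]; exact pow_orderOf_eq_one z
  set K : Set H := Set.range (fun n : ℕ => z ^ n) with hK
  have hKA : K ⊆ A := by rintro _ ⟨n, rfl⟩; exact hzA n
  have h1K : (1 : H) ∈ K := ⟨0, by simp⟩
  have hzK : z ∈ K := ⟨1, by simp⟩
  have hK1 : K ≠ 1 := ne_one_of_mem hzK hz1
  set B : Set H := A \ {z} with hBdef
  have h1B : (1 : H) ∈ B := ⟨hA.2.1, fun h => hz1 h.symm⟩
  have hzzB : z * z ∈ B := ⟨by simpa [pow_two] using hzA 2, hz3⟩
  have hBne : B ≠ 1 := ne_one_of_mem hzzB hz2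
  have hBA : B ≠ A := by
    intro h
    have : z ∈ B := by rw [h]; exact hKA hzK
    exact this.2 rfl
  by_cases hKe : K = A
  · have hAB : A = B * B := by
      apply Set.Subset.antisymm
      · intro g hg
        by_cases hgz : g = z
        · subst hgz
          refine ⟨g * g, hzzB, g ^ (n + 2), ⟨hzA _, ?_⟩, ?_⟩
          · intro hcon
            have hcon : g ^ (n + 2) = g := hcon
            apply hz2
            rw [← hzn, pow_succ, hcon]
          · show g * g * g ^ (n + 2) = g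
            rw [mul_assoc, ← pow_succ' g (n + 2), hzn, mul_one]
        · exact ⟨g, ⟨hg, hgz⟩, 1, h1B, by simp⟩
      · rintro _ ⟨a, ha, b, hb, rfl⟩
        have ha' : a ∈ K := by rw [hKe]; exact ha.1
        obtain ⟨m, rfl⟩ := ha'
        exact hpow m b hb.1
    rcases hA.2.2.2 B B h1B h1B hAB hBne hBne with h | h
    · exact hBA h
    · exact hBA h
  · have hAB : A = K * B := by
      apply Set.Subset.antisymm
      · intro g hg
        by_cases hgz : g = z
        · subst hgz
          exact ⟨g, hzK, 1, h1B, by simp⟩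
        · exact ⟨1, h1K, g, ⟨hg, hgz⟩, by simp⟩
      · rintro _ ⟨_, ⟨m, rfl⟩, a, ha, rfl⟩
        exact hpow m a ha.1
    rcases hA.2.2.2 K B h1K h1B hAB hK1 hBne with h | h
    · exact hKe h
    · exact hBA h

/-- In case B an irreducible has no other factorization length. -/
theorem irr_unique (hB : ∀ x : H, x ≠ 1 → x * x ≠ 1 ∧ x * x ≠ x) {X : Set H} (hX : Irr X) {m : ℕ}
    (h : HasLen m X) : m = 1 := by
  match m, h with
  | 0, h => exact absurd h hX.2.2.1
  | 1, _ => rfl
  | (m + 2), h =>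
    exfalso
    obtain ⟨A, Y, hA, hY, hXe⟩ := h
    have hY1 : Y ≠ 1 := hasLen_ne_one hY
    rcases hX.2.2.2 A Y hA.2.1 hY.fin.2 hXe hA.2.2.1 hY1 with h | h
    · rw [h] at hXe
      exact hY1 (irr_absorb_right hB hX hY.fin.2 hXe.symm)
    · rw [h] at hXe
      exact hA.2.2.1 (irr_absorb_left hB hX hA.2.1 hXe.symm)

theorem union_one (hB : ∀ x : H, x ≠ 1 → x * x ≠ 1 ∧ x * x ≠ x) (hne : ∃ x : H, x ≠ 1) :
    UnionLengths (ReducedPower H) 1 = {1} := by
  obtain ⟨x, hx⟩ := hne
  ext m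
  rw [mem_union_iff]
  constructor
  · rintro ⟨X, h1, h2⟩
    exact irr_unique hB (hasLen_one_iff.1 h1) h2
  · rintro rfl
    exact ⟨{1, x}, hasLen_one_iff.2 (irr_pair hx), hasLen_one_iff.2 (irr_pair hx)⟩

theorem two_le_of_mem (hB : ∀ x : H, x ≠ 1 → x * x ≠ 1 ∧ x * x ≠ x) {k m : ℕ} (hk : 2 ≤ k)
    (h : ∃ X : Set H, HasLen k X ∧ HasLen m X) : 2 ≤ m := by
  by_contra hm
  obtain ⟨X, h1, h2⟩ := h
  rcases (by omega : m = 0 ∨ m = 1) with rfl | rfl
  · exact zero_not_mem (by omega) ⟨X, h1, h2⟩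
  · have := irr_unique hB (hasLen_one_iff.1 h2) h1
    omega

/-- It suffices to have all lengths `≥ 2` in one set. -/
theorem union_of_all (hB : ∀ x : H, x ≠ 1 → x * x ≠ 1 ∧ x * x ≠ x) {k : ℕ} (hk : 2 ≤ k)
    (h : ∀ m : ℕ, 2 ≤ m → ∃ X : Set H, HasLen k X ∧ HasLen m X) :
    UnionLengths (ReducedPower H) k = {m | 2 ≤ m} := by
  ext m
  rw [mem_union_iff]
  exact ⟨fun h' => two_le_of_mem hB hk h', fun hm => h m hm⟩

end CaseB

/-! ### Sets of powers of one element -/

section Powers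

variable {H : Type u} [Monoid H]

/-- The powers of `x` with exponents in `S`. -/
def pw (x : H) (S : Set ℕ) : Set H := (fun n : ℕ => x ^ n) '' S

theorem pw_mul (x : H) (S T : Set ℕ) : pw x S * pw x T = pw x (S + T) := by
  ext g
  constructor
  · rintro ⟨_, ⟨i, hi, rfl⟩, _, ⟨j, hj, rfl⟩, rfl⟩
    exact ⟨i + j, ⟨i, hi, j, hj, rfl⟩, pow_add x i j⟩
  · rintro ⟨_, ⟨i, hi, j, hj, rfl⟩, rfl⟩
    exact ⟨x ^ i, ⟨i, hi, rfl⟩, x ^ j, ⟨j, hj, rfl⟩, (pow_add x i j).symm⟩

/-- A strong form of irreducibility for finite sets of natural numbers. -/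
def IrrN (S : Set ℕ) : Prop :=
  0 ∈ S ∧ (∃ s ∈ S, s ≠ 0) ∧
    ∀ B C : Set ℕ, 0 ∈ B → 0 ∈ C → S = B + C → (∀ b ∈ B, b = 0) ∨ (∀ c ∈ C, c = 0)

theorem pw_irr (x : H) (N : ℕ) (hinj : ∀ i j : ℕ, i ≤ N → j ≤ N → x ^ i = x ^ j → i = j)
    {S : Set ℕ} (hS : IrrN S) (m : ℕ) (hm : ∀ s ∈ S, s ≤ m) (hmN : 2 * m ≤ N) : Irr (pw x S) := by
  have hfin : S.Finite := (Set.finite_Iic m).subset hm
  refine ⟨hfin.image _, ⟨0, hS.1, by simp⟩, ?_, ?_⟩
  · obtain ⟨s, hs, hs0⟩ := hS.2.1
    refine ne_one_of_mem (x := x ^ s) ⟨s, hs, rfl⟩ ?_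
    intro h
    have := hm s hs
    exact hs0 (hinj s 0 (by omega) (by omega) (by simpa using h))
  · intro B C hB hC hA hB1 hC1
    exfalso
    have hBs : B ⊆ pw x S := by rw [hA]; exact subset_mul_left hC
    have hCs : C ⊆ pw x S := by rw [hA]; exact subset_mul_right hB
    have hdec : S = {i | i ∈ S ∧ x ^ i ∈ B} + {i | i ∈ S ∧ x ^ i ∈ C} := by
      ext s
      constructor
      · intro hs
        have : x ^ s ∈ B * C := by rw [← hA]; exact ⟨s, hs, rfl⟩
        obtain ⟨b, hb, c, hc, hbc⟩ := this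
        obtain ⟨i, hi, rfl⟩ := hBs hb
        obtain ⟨j, hj, rfl⟩ := hCs hc
        have h1 := hm s hs
        have h2 := hm i hi
        have h3 := hm j hj
        have : i + j = s := hinj _ _ (by omega) (by omega) (by rw [pow_add]; exact hbc)
        exact ⟨i, ⟨hi, hb⟩, j, ⟨hj, hc⟩, this⟩
      · rintro ⟨i, ⟨hi, hb⟩, j, ⟨hj, hc⟩, rfl⟩
        have : x ^ i * x ^ j ∈ pw x S := by rw [hA]; exact ⟨_, hb, _, hc, rfl⟩
        obtain ⟨s, hs, hse⟩ := this
        have h1 := hm s hs
        have h2 := hm i hi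
        have h3 := hm j hj
        have : s = i + j := hinj _ _ (by omega) (by omega) (by rw [pow_add]; exact hse)
        show i + j ∈ S
        rw [← this]; exact hs
    have h0B : (0 : ℕ) ∈ ({i | i ∈ S ∧ x ^ i ∈ B} : Set ℕ) := ⟨hS.1, by simpa using hB⟩
    have h0C : (0 : ℕ) ∈ ({i | i ∈ S ∧ x ^ i ∈ C} : Set ℕ) := ⟨hS.1, by simpa using hC⟩
    rcases hS.2.2 _ _ h0B h0C hdec with h | h
    · apply hB1
      apply eq_one_of_subset hB
      intro b hb
      obtain ⟨i, hi, rfl⟩ := hBs hb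
      rw [h i ⟨hi, hb⟩]
      simp
    · apply hC1
      apply eq_one_of_subset hC
      intro b hb
      obtain ⟨i, hi, rfl⟩ := hCs hb
      rw [h i ⟨hi, hb⟩]
      simp

/-- `{0, 1, 3, 5, …}` up to `m`. -/
def S1 (m : ℕ) : Set ℕ := {i | i ≤ m ∧ (i = 0 ∨ i % 2 = 1)}
/-- `{0, 1, 2, 4, 6, …}` up to `m`. -/
def S2 (m : ℕ) : Set ℕ := {i | i ≤ m ∧ (i = 1 ∨ i % 2 = 0)}
/-- `{0, 2, 4, …, m - 1, m}` for odd `m`. -/
def R1 (m : ℕ) : Set ℕ := {i | i ≤ m ∧ (i = m ∨ i % 2 = 0)}
/-- `{0, 2, 4, …, m - 2, m - 1, m}` for even `m`. -/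
def R2 (m : ℕ) : Set ℕ := {i | i ≤ m ∧ (i + 1 = m ∨ i % 2 = 0)}

theorem mem_add_of {S B C : Set ℕ} (h : S = B + C) {b c : ℕ} (hb : b ∈ B) (hc : c ∈ C) :
    b + c ∈ S := by rw [h]; exact ⟨b, hb, c, hc, rfl⟩

theorem S1_irr (m : ℕ) (hm : 1 ≤ m) : IrrN (S1 m) := by
  refine ⟨⟨by omega, by omega⟩, ⟨1, ⟨by omega, by omega⟩, by omega⟩, ?_⟩
  intro B C hB hC h
  have h1 : 1 ∈ S1 m := ⟨hm, by omega⟩
  have h1' := h1
  rw [h] at h1'
  obtain ⟨b, hb, c, hc, hbc⟩ := h1'
  have hbc : b + c = 1 := hbc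
  rcases (by omega : b = 1 ∨ c = 1) with rfl | rfl
  · right
    intro c' hc'
    have h2 := mem_add_of h hb hc'
    have h3 := mem_add_of h hB hc'
    obtain ⟨_, h2⟩ := h2
    obtain ⟨_, h3⟩ := h3
    omega
  · left
    intro b' hb'
    have h2 := mem_add_of h hb' hc
    have h3 := mem_add_of h hb' hC
    obtain ⟨_, h2⟩ := h2
    obtain ⟨_, h3⟩ := h3
    omega

theorem S2_irr (m : ℕ) (hm : 4 ≤ m) : IrrN (S2 m) := by
  refine ⟨⟨by omega, by omega⟩, ⟨1, ⟨by omega, by omega⟩, by omega⟩, ?_⟩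
  intro B C hB hC h
  have h1 : 1 ∈ S2 m := ⟨by omega, by omega⟩
  have h4 : 4 ∈ S2 m := ⟨by omega, by omega⟩
  rw [h] at h1 h4
  obtain ⟨b, hb, c, hc, hbc⟩ := h1
  have hbc : b + c = 1 := hbc
  obtain ⟨b4, hb4, c4, hc4, hbc4⟩ := h4
  have hbc4 : b4 + c4 = 4 := hbc4
  by_contra hcon
  push Not at hcon
  obtain ⟨⟨b', hb', hb0⟩, c', hc', hc0⟩ := hcon
  rcases (by omega : b = 1 ∨ c = 1) with rfl | rfl
  · -- `C ⊆ {0,1}`
    have hC1 : ∀ c ∈ C, c ≤ 1 := by
      intro c hc
      obtain ⟨_, h2⟩ := mem_add_of h hb hc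
      obtain ⟨_, h3⟩ := mem_add_of h hB hc
      omega
    have h1C : (1 : ℕ) ∈ C := by
      have := hC1 c' hc'
      have : c' = 1 := by omega
      rw [← this]; exact hc'
    have hB1 : ∀ b ∈ B, b ≤ 1 := by
      intro b hb
      obtain ⟨_, h2⟩ := mem_add_of h hb h1C
      obtain ⟨_, h3⟩ := mem_add_of h hb hC
      omega
    have := hB1 _ hb4
    have := hC1 _ hc4
    omega
  · have hB1 : ∀ b ∈ B, b ≤ 1 := by
      intro b hb
      obtain ⟨_, h2⟩ := mem_add_of h hb hc
      obtain ⟨_, h3⟩ := mem_add_of h hb hC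
      omega
    have h1B : (1 : ℕ) ∈ B := by
      have := hB1 b' hb'
      have : b' = 1 := by omega
      rw [← this]; exact hb'
    have hC1 : ∀ c ∈ C, c ≤ 1 := by
      intro c hc
      obtain ⟨_, h2⟩ := mem_add_of h h1B hc
      obtain ⟨_, h3⟩ := mem_add_of h hB hc
      omega
    have := hB1 _ hb4
    have := hC1 _ hc4
    omega

theorem R1_irr (m : ℕ) (hm : m % 2 = 1) : IrrN (R1 m) := by
  refine ⟨⟨by omega, by omega⟩, ⟨m, ⟨by omega, by omega⟩, by omega⟩, ?_⟩
  intro B C hB hC h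
  have h1 : m ∈ R1 m := ⟨by omega, by omega⟩
  rw [h] at h1
  obtain ⟨b, hb, c, hc, hbc⟩ := h1
  have hbc : b + c = m := hbc
  obtain ⟨_, h3⟩ := mem_add_of h hb hC
  obtain ⟨_, h4⟩ := mem_add_of h hB hc
  rcases (by omega : b = m ∨ c = m) with rfl | rfl
  · right
    intro c' hc'
    obtain ⟨h2, _⟩ := mem_add_of h hb hc'
    omega
  · left
    intro b' hb'
    obtain ⟨h2, _⟩ := mem_add_of h hb' hc
    omega

theorem R2_irr (m : ℕ) (hm : m % 2 = 0) (hm4 : 4 ≤ m) : IrrN (R2 m) := by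
  refine ⟨⟨by omega, by omega⟩, ⟨m, ⟨by omega, by omega⟩, by omega⟩, ?_⟩
  intro B C hB hC h
  have h1 : m - 1 ∈ R2 m := ⟨by omega, by omega⟩
  rw [h] at h1
  obtain ⟨b, hb, c, hc, hbc⟩ := h1
  have hbc : b + c = m - 1 := hbc
  obtain ⟨_, h3⟩ := mem_add_of h hb hC
  obtain ⟨_, h4⟩ := mem_add_of h hB hc
  rcases (by omega : b = m - 1 ∨ c = m - 1) with rfl | rfl
  · right
    intro c' hc'
    obtain ⟨h2, _⟩ := mem_add_of h hb hc'
    obtain ⟨h5, h6⟩ := mem_add_of h hB hc'
    omega
  · left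
    intro b' hb'
    obtain ⟨h2, _⟩ := mem_add_of h hb' hc
    obtain ⟨h5, h6⟩ := mem_add_of h hb' hC
    omega

theorem sum_odd (m : ℕ) (hm : m % 2 = 1) : S1 m + R1 m = Set.Iic (2 * m) := by
  ext i
  constructor
  · rintro ⟨a, ⟨ha, _⟩, b, ⟨hb, _⟩, rfl⟩
    show a + b ≤ 2 * m
    omega
  · intro hi
    have hi : i ≤ 2 * m := hi
    by_cases hp : i % 2 = 1
    · by_cases hle : i ≤ m
      · exact ⟨i, ⟨hle, Or.inr hp⟩, 0, ⟨by omega, by omega⟩, by simp⟩
      · exact ⟨m, ⟨by omega, by omega⟩, i - m, ⟨by omega, by omega⟩, by show m + (i - m) = i; omega⟩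
    · by_cases hle : i ≤ m
      · exact ⟨0, ⟨by omega, by omega⟩, i, ⟨hle, by omega⟩, by simp⟩
      · exact ⟨i - m, ⟨by omega, by omega⟩, m, ⟨by omega, by omega⟩, by show (i - m) + m = i; omega⟩

theorem sum_even (m : ℕ) (hm : m % 2 = 0) (hm4 : 4 ≤ m) : S2 m + R2 m = Set.Iic (2 * m) := by
  ext i
  constructor
  · rintro ⟨a, ⟨ha, _⟩, b, ⟨hb, _⟩, rfl⟩
    show a + b ≤ 2 * m
    omega
  · intro hi
    have hi : i ≤ 2 * m := hi
    by_cases hp : i % 2 = 1
    · by_cases hle : i ≤ m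
      · exact ⟨1, ⟨by omega, by omega⟩, i - 1, ⟨by omega, by omega⟩,
          by show 1 + (i - 1) = i; omega⟩
      · exact ⟨i - (m - 1), ⟨by omega, by omega⟩, m - 1, ⟨by omega, by omega⟩,
          by show i - (m - 1) + (m - 1) = i; omega⟩
    · by_cases hle : i ≤ m
      · exact ⟨0, ⟨by omega, by omega⟩, i, ⟨hle, by omega⟩, by simp⟩
      · exact ⟨i - m, ⟨by omega, by omega⟩, m, ⟨by omega, by omega⟩, by show (i - m) + m = i; omega⟩

/-- `[0, N]` has length `2` for every `N ≥ 2`, provided the powers are distinct up to `2 N`. -/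
theorem hasLen_two_Iic (x : H) (hinj : Function.Injective (fun n : ℕ => x ^ n)) (N : ℕ)
    (hN : 2 ≤ N) : HasLen 2 (pw x (Set.Iic N)) := by
  have key : ∀ S : Set ℕ, IrrN S → (∀ s ∈ S, s ≤ N) → Irr (pw x S) := fun S hS hm =>
    pw_irr x (2 * N) (fun i j _ _ h => hinj h) hS N hm le_rfl
  have key2 : ∀ S T : Set ℕ, IrrN S → (∀ s ∈ S, s ≤ N) → IrrN T → (∀ s ∈ T, s ≤ N) →
      S + T = Set.Iic N → HasLen 2 (pw x (Set.Iic N)) := by
    intro S T hS hSN hT hTN h
    rw [← h, ← pw_mul]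
    exact (hasLen_one_iff.2 (key S hS hSN)).mul (hasLen_one_iff.2 (key T hT hTN))
  by_cases hp : N % 2 = 0
  · refine key2 (S1 1) (S1 (N - 1)) (S1_irr 1 le_rfl) ?_ (S1_irr _ (by omega)) ?_ ?_
    · rintro s ⟨hs, _⟩; omega
    · rintro s ⟨hs, _⟩; omega
    · ext i
      constructor
      · rintro ⟨a, ⟨ha, _⟩, b, ⟨hb, _⟩, rfl⟩
        show a + b ≤ N
        omega
      · intro hi
        have hi : i ≤ N := hi
        by_cases hi2 : i = 0 ∨ i % 2 = 1
        · exact ⟨0, ⟨by omega, by omega⟩, i, ⟨by omega, by omega⟩, by simp⟩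
        · exact ⟨1, ⟨by omega, by omega⟩, i - 1, ⟨by omega, by omega⟩,
            by show 1 + (i - 1) = i; omega⟩
  · by_cases hN3 : N = 3
    · have hR : IrrN ({i | i = 0 ∨ i = 2} : Set ℕ) := by
        refine ⟨by simp, ⟨2, by simp, by omega⟩, ?_⟩
        intro B C hB hC h
        have h1 : (2 : ℕ) ∈ ({i | i = 0 ∨ i = 2} : Set ℕ) := by simp
        rw [h] at h1
        obtain ⟨b, hb, c, hc, hbc⟩ := h1
        have hbc : b + c = 2 := hbc
        have h3 : b + 0 = 0 ∨ b + 0 = 2 := mem_add_of h hb hC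
        have h4 : 0 + c = 0 ∨ 0 + c = 2 := mem_add_of h hB hc
        rcases (by omega : b = 2 ∨ c = 2) with rfl | rfl
        · right
          intro c' hc'
          have h2 : 2 + c' = 0 ∨ 2 + c' = 2 := mem_add_of h hb hc'
          omega
        · left
          intro b' hb'
          have h2 : b' + 2 = 0 ∨ b' + 2 = 2 := mem_add_of h hb' hc
          omega
      refine key2 (S1 1) {i | i = 0 ∨ i = 2} (S1_irr 1 le_rfl) ?_ hR ?_ ?_
      · rintro s ⟨hs, _⟩; omega
      · rintro s hs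
        have hs : s = 0 ∨ s = 2 := hs
        omega
      · subst hN3
        ext i
        constructor
        · rintro ⟨a, ⟨ha, _⟩, b, hb, rfl⟩
          have hb : b = 0 ∨ b = 2 := hb
          show a + b ≤ 3
          omega
        · intro hi
          have hi : i ≤ 3 := hi
          refine ⟨i % 2, ⟨by omega, by omega⟩, i - i % 2, ?_, ?_⟩
          · show i - i % 2 = 0 ∨ i - i % 2 = 2
            omega
          · show i % 2 + (i - i % 2) = i
            omega
    · refine key2 (S1 1) (S2 (N - 1)) (S1_irr 1 le_rfl) ?_ (S2_irr _ (by omega)) ?_ ?_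
      · rintro s ⟨hs, _⟩; omega
      · rintro s ⟨hs, _⟩; omega
      · ext i
        constructor
        · rintro ⟨a, ⟨ha, _⟩, b, ⟨hb, _⟩, rfl⟩
          show a + b ≤ N
          omega
        · intro hi
          have hi : i ≤ N := hi
          by_cases hi2 : i % 2 = 0
          · exact ⟨0, ⟨by omega, by omega⟩, i, ⟨by omega, by omega⟩, by simp⟩
          · exact ⟨1, ⟨by omega, by omega⟩, i - 1, ⟨by omega, by omega⟩,
              by show 1 + (i - 1) = i; omega⟩

theorem hasLen_pow_pair (x : H) (hx : x ≠ 1) (N : ℕ) : HasLen N (pw x (Set.Iic N)) := by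
  induction N with
  | zero =>
    show pw x (Set.Iic 0) = 1
    ext g
    constructor
    · rintro ⟨i, hi, rfl⟩
      have hi : i ≤ 0 := hi
      rw [show i = 0 by omega]
      simp
    · intro hg
      rw [Set.mem_one] at hg
      exact ⟨0, Set.mem_Iic.2 le_rfl, by simp [hg]⟩
  | succ N ih =>
    refine ⟨{1, x}, pw x (Set.Iic N), irr_pair hx, ih, ?_⟩
    ext g
    constructor
    · rintro ⟨i, hi, rfl⟩
      have hi : i ≤ N + 1 := hi
      cases i with
      | zero => exact ⟨1, by simp, 1, ⟨0, Nat.zero_le _, by simp⟩, by simp⟩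
      | succ i => exact ⟨x, by simp, x ^ i, ⟨i, by show i ≤ N; omega, rfl⟩, (pow_succ' x i).symm⟩
    · rintro ⟨a, ha, _, ⟨i, hi, rfl⟩, rfl⟩
      have hi : i ≤ N := hi
      rcases ha with rfl | ha
      · exact ⟨i, by show i ≤ N + 1; omega, by simp⟩
      · rw [show a = x from ha]
        exact ⟨i + 1, by show i + 1 ≤ N + 1; omega, pow_succ' x i⟩

/-- An element of infinite order. -/
theorem all_of_infinite (x : H) (hinj : Function.Injective (fun n : ℕ => x ^ n)) {k m : ℕ}
    (hk : 2 ≤ k) (hm : 2 ≤ m) : ∃ X : Set H, HasLen k X ∧ HasLen m X := by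
  have hx : x ≠ 1 := by
    intro h
    have : (fun n : ℕ => x ^ n) 0 = (fun n : ℕ => x ^ n) 1 := by simp [h]
    exact absurd (hinj this) (by omega)
  wlog hkm : k ≤ m generalizing k m
  · obtain ⟨X, h1, h2⟩ := this hm hk (by omega)
    exact ⟨X, h2, h1⟩
  obtain ⟨d, rfl⟩ := Nat.exists_eq_add_of_le hkm
  obtain ⟨e, rfl⟩ := Nat.exists_eq_add_of_le hk
  refine ⟨pw x (Set.Iic (2 + d)) * pw x (Set.Iic e), ?_, ?_⟩
  · exact (hasLen_two_Iic x hinj (2 + d) (by omega)).mul (hasLen_pow_pair x hx e)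
  · have := (hasLen_pow_pair x hx (2 + d)).mul (hasLen_pow_pair x hx e)
    rw [show 2 + d + e = 2 + e + d by ring] at this
    exact this

end Powers

/-! ### Torsion elements -/

section Torsion

variable {H : Type u} [Monoid H]

/-- Absorption of `{1,x}` by the full set of powers. -/
theorem absorb_all (x : H) (n : ℕ) (hn : x ^ (n + 1) = 1) :
    pw x (Set.Iic n) * {1, x} = pw x (Set.Iic n) := by
  apply Set.Subset.antisymm
  · rintro _ ⟨_, ⟨i, hi, rfl⟩, b, hb, rfl⟩
    have hi : i ≤ n := hi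
    rcases hb with rfl | hb
    · exact ⟨i, hi, by simp⟩
    · rw [show b = x from hb]
      show x ^ i * x ∈ pw x (Set.Iic n)
      rw [← pow_succ]
      by_cases hin : i = n
      · rw [hin, hn]
        exact ⟨0, Nat.zero_le _, by simp⟩
      · exact ⟨i + 1, by show i + 1 ≤ n; omega, rfl⟩
  · exact subset_mul_left (by simp)

theorem pow_inj_order (x : H) {i j : ℕ} (hi : i < orderOf x) (hj : j < orderOf x)
    (h : x ^ i = x ^ j) : i = j := pow_injOn_Iio_orderOf hi hj h

/-- An element of odd finite order `≥ 7`. -/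
theorem all_of_seven (x : H) (h7 : 7 ≤ orderOf x) (hodd : orderOf x % 2 = 1) {k m : ℕ}
    (hk : 2 ≤ k) (hm : 2 ≤ m) : ∃ X : Set H, HasLen k X ∧ HasLen m X := by
  have hx : x ≠ 1 := by
    intro h
    rw [h, orderOf_one] at h7
    omega
  obtain ⟨r, hr⟩ : ∃ r, orderOf x = 2 * r + 1 := ⟨orderOf x / 2, by omega⟩
  have hpow : x ^ (2 * r + 1) = 1 := by rw [← hr]; exact pow_orderOf_eq_one x
  have key : ∀ S : Set ℕ, IrrN S → (∀ s ∈ S, s ≤ r) → Irr (pw x S) := fun S hS hm =>
    pw_irr x (2 * r) (fun i j hi hj h => pow_inj_order x (by omega) (by omega) h) hS r hm le_rfl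
  have key2 : ∀ S T : Set ℕ, IrrN S → (∀ s ∈ S, s ≤ r) → IrrN T → (∀ s ∈ T, s ≤ r) →
      S + T = Set.Iic (2 * r) → HasLen 2 (pw x (Set.Iic (2 * r))) := by
    intro S T hS hSN hT hTN h
    rw [← h, ← pw_mul]
    exact (hasLen_one_iff.2 (key S hS hSN)).mul (hasLen_one_iff.2 (key T hT hTN))
  have h2 : HasLen 2 (pw x (Set.Iic (2 * r))) := by
    by_cases hp : r % 2 = 1
    · exact key2 (S1 r) (R1 r) (S1_irr r (by omega)) (fun s hs => hs.1) (R1_irr r hp)
        (fun s hs => hs.1) (sum_odd r hp)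
    · exact key2 (S2 r) (R2 r) (S2_irr r (by omega)) (fun s hs => hs.1)
        (R2_irr r (by omega) (by omega)) (fun s hs => hs.1) (sum_even r (by omega) (by omega))
  have h3 := absorb_all x (2 * r) hpow
  exact ⟨_, hasLen_of_absorb h2 hx (Or.inl h3) k hk, hasLen_of_absorb h2 hx (Or.inl h3) m hm⟩

/-- An element of order `3`. -/
theorem all_of_three (x : H) (h3 : orderOf x = 3) {k m : ℕ}
    (hk : 2 ≤ k) (hm : 2 ≤ m) : ∃ X : Set H, HasLen k X ∧ HasLen m X := by
  have hx : x ≠ 1 := by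
    intro h
    rw [h, orderOf_one] at h3
    omega
  have hpow : x ^ (2 + 1) = 1 := by
    have := pow_orderOf_eq_one x
    rw [h3] at this
    exact this
  have h2 : HasLen 2 (pw x (Set.Iic 2)) := hasLen_pow_pair x hx 2
  have h3 := absorb_all x 2 hpow
  exact ⟨_, hasLen_of_absorb h2 hx (Or.inl h3) k hk, hasLen_of_absorb h2 hx (Or.inl h3) m hm⟩

/-- A cyclic subgroup of odd order with one extra point is irreducible, in a monoid in which every
element has odd order. -/
theorem irr_insert (hT : ∀ x : H, 0 < orderOf x ∧ orderOf x % 2 = 1) {c y : H}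
    (hy : ∀ i : ℕ, c ^ i ≠ y) : Irr (Set.range (fun i : ℕ => c ^ i) ∪ {y}) := by
  set K : Set H := Set.range (fun i : ℕ => c ^ i) with hK
  have h1K : (1 : H) ∈ K := ⟨0, by simp⟩
  have hyK : y ∉ K := by rintro ⟨i, hi⟩; exact hy i hi
  have hy1 : y ≠ 1 := by rintro rfl; exact hyK h1K
  have hcancel : ∀ a b d : H, a * b = a * d → b = d := by
    intro a b d h
    have hu : IsUnit a := (orderOf_pos_iff.1 (hT a).1).isUnit
    exact hu.mul_left_cancel h
  have hcancel' : ∀ a b d : H, b * a = d * a → b = d := by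
    intro a b d h
    have hu : IsUnit a := (orderOf_pos_iff.1 (hT a).1).isUnit
    exact hu.mul_right_cancel h
  have hKinv : ∀ a ∈ K, ∃ b ∈ K, a * b = 1 ∧ b * a = 1 := by
    rintro _ ⟨i, rfl⟩
    refine ⟨c ^ (i * (orderOf c - 1)), ⟨_, rfl⟩, ?_, ?_⟩
    · show c ^ i * c ^ (i * (orderOf c - 1)) = 1
      rw [← pow_add, show i + i * (orderOf c - 1) = orderOf c * i by
        obtain ⟨t, ht⟩ : ∃ t, orderOf c = t + 1 := ⟨orderOf c - 1, by have := (hT c).1; omega⟩
        rw [ht, Nat.add_sub_cancel]; ring, pow_mul, pow_orderOf_eq_one, one_pow]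
    · show c ^ (i * (orderOf c - 1)) * c ^ i = 1
      rw [← pow_add, show i * (orderOf c - 1) + i = orderOf c * i by
        obtain ⟨t, ht⟩ : ∃ t, orderOf c = t + 1 := ⟨orderOf c - 1, by have := (hT c).1; omega⟩
        rw [ht, Nat.add_sub_cancel]; ring, pow_mul, pow_orderOf_eq_one, one_pow]
  have hKmul : ∀ a ∈ K, ∀ b ∈ K, a * b ∈ K := by
    rintro _ ⟨i, rfl⟩ _ ⟨j, rfl⟩
    exact ⟨i + j, pow_add c i j⟩
  have hyy : y * y ∉ K := by
    intro h
    apply hyK
    obtain ⟨hpos, hodd⟩ := hT y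
    obtain ⟨t, ht⟩ : ∃ t, orderOf y = 2 * t + 1 := ⟨orderOf y / 2, by omega⟩
    have : y = (y * y) ^ (t + 1) := by
      rw [← pow_two, ← pow_mul, show 2 * (t + 1) = (2 * t + 1) + 1 by ring, ← ht, pow_succ,
        pow_orderOf_eq_one, one_mul]
    rw [this]
    obtain ⟨i, hi⟩ := h
    exact ⟨i * (t + 1), by rw [← hi]; exact pow_mul c i (t + 1)⟩
  have hyyy : y * y ≠ y := fun h => hy1 (hcancel y y 1 (by rw [h, mul_one]))
  have hKy : ∀ a ∈ K, y * a ∈ K → False := by
    intro a ha h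
    obtain ⟨b, hb, hab, _⟩ := hKinv a ha
    apply hyK
    have := hKmul _ h _ hb
    rwa [mul_assoc, hab, mul_one] at this
  have hKy' : ∀ a ∈ K, a * y ∈ K → False := by
    intro a ha h
    obtain ⟨b, hb, _, hab⟩ := hKinv a ha
    apply hyK
    have := hKmul _ hb _ h
    rwa [← mul_assoc, hab, one_mul] at this
  have hKfin : K.Finite := by
    apply ((Set.finite_Iio (orderOf c)).image (fun i : ℕ => c ^ i)).subset
    rintro _ ⟨i, rfl⟩
    exact ⟨i % orderOf c, Nat.mod_lt _ (hT c).1, pow_mod_orderOf c i⟩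
  refine ⟨hKfin.union (Set.finite_singleton y), Or.inl h1K,
    ne_one_of_mem (x := y) (Or.inr rfl) hy1, ?_⟩
  intro B C hB hC hA hB1 hC1
  exfalso
  have hBs : B ⊆ K ∪ {y} := by rw [hA]; exact subset_mul_left hC
  have hCs : C ⊆ K ∪ {y} := by rw [hA]; exact subset_mul_right hB
  -- if `y ∈ B` then `C = 1`
  have caseB : y ∈ B → False := by
    intro hyB
    apply hC1
    apply eq_one_of_subset hC
    intro c' hc'
    rw [Set.mem_one]
    have hmem : y * c' ∈ K ∪ {y} := by rw [hA]; exact ⟨y, hyB, c', hc', rfl⟩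
    rcases hCs hc' with h | h
    · rcases hmem with h2 | h2
      · exact (hKy _ h h2).elim
      · exact hcancel y c' 1 (by rw [mul_one]; exact h2)
    · rw [show c' = y from h] at hmem
      rcases hmem with h2 | h2
      · exact (hyy h2).elim
      · exact (hyyy h2).elim
  have caseC : y ∈ C → False := by
    intro hyC
    apply hB1
    apply eq_one_of_subset hB
    intro c' hc'
    rw [Set.mem_one]
    have hmem : c' * y ∈ K ∪ {y} := by rw [hA]; exact ⟨c', hc', y, hyC, rfl⟩
    rcases hBs hc' with h | h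
    · rcases hmem with h2 | h2
      · exact (hKy' _ h h2).elim
      · exact hcancel' y c' 1 (by rw [one_mul]; exact h2)
    · rw [show c' = y from h] at hmem
      rcases hmem with h2 | h2
      · exact (hyy h2).elim
      · exact (hyyy h2).elim
  have hyA : y ∈ K ∪ {y} := Or.inr rfl
  rw [hA] at hyA
  obtain ⟨b, hb, d, hd, hbd⟩ := hyA
  rcases hBs hb with h1 | h1
  · rcases hCs hd with h2 | h2
    · apply hyK
      rw [← hbd]
      exact hKmul _ h1 _ h2
    · rw [show d = y from h2] at hd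
      exact caseC hd
  · rw [show b = y from h1] at hb
    exact caseB hb

/-- Two elements of odd order, neither a power of the other. -/
theorem all_of_pair (hT : ∀ x : H, 0 < orderOf x ∧ orderOf x % 2 = 1) {c w : H}
    (hcw : ∀ i : ℕ, c ^ i ≠ w) (hwc : ∀ i : ℕ, w ^ i ≠ c) {k m : ℕ}
    (hk : 2 ≤ k) (hm : 2 ≤ m) : ∃ X : Set H, HasLen k X ∧ HasLen m X := by
  have hc : c ≠ 1 := by
    rintro rfl
    exact hwc 0 (by simp)
  set y : H := w ^ (orderOf w - 1) * c with hy
  have hwy : w * y = c := by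
    rw [hy, ← mul_assoc, ← pow_succ', Nat.sub_add_cancel (hT w).1, pow_orderOf_eq_one, one_mul]
  have hyw : ∀ i : ℕ, w ^ i ≠ y := by
    intro i h
    apply hwc (i + 1)
    rw [pow_succ', h, hwy]
  have hA := irr_insert hT hcw
  have hB := irr_insert hT hyw
  set K : Set H := Set.range (fun i : ℕ => c ^ i) with hK
  set L : Set H := Set.range (fun i : ℕ => w ^ i) with hL
  have h1K : (1 : H) ∈ K := ⟨0, by simp⟩
  have h1L : (1 : H) ∈ L := ⟨0, by simp⟩
  have hAB : (K ∪ {w}) * (L ∪ {y}) = K * (L ∪ {y}) := by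
    apply Set.Subset.antisymm
    · rintro _ ⟨a, ha, b, hb, rfl⟩
      rcases ha with ha | ha
      · exact ⟨a, ha, b, hb, rfl⟩
      · rw [show a = w from ha]
        rcases hb with ⟨i, rfl⟩ | hb
        · exact ⟨1, h1K, w ^ (i + 1), Or.inl ⟨i + 1, rfl⟩, by
            show 1 * w ^ (i + 1) = w * w ^ i
            rw [one_mul, pow_succ']⟩
        · rw [show b = y from hb]
          exact ⟨c, ⟨1, by simp⟩, 1, Or.inl h1L, by
            show c * 1 = w * y
            rw [mul_one, hwy]⟩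
    · rintro _ ⟨a, ha, b, hb, rfl⟩
      exact ⟨a, Or.inl ha, b, hb, rfl⟩
  have habs : {1, c} * ((K ∪ {w}) * (L ∪ {y})) = (K ∪ {w}) * (L ∪ {y}) := by
    rw [hAB]
    apply Set.Subset.antisymm
    · rintro _ ⟨a, ha, _, ⟨_, ⟨i, rfl⟩, b, hb, rfl⟩, rfl⟩
      rcases ha with rfl | ha
      · exact ⟨c ^ i, ⟨i, rfl⟩, b, hb, by simp⟩
      · rw [show a = c from ha]
        exact ⟨c ^ (i + 1), ⟨i + 1, rfl⟩, b, hb, by
          show c ^ (i + 1) * b = c * (c ^ i * b)
          rw [pow_succ', mul_assoc]⟩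
    · exact subset_mul_right (by simp)
  have h2 : HasLen 2 ((K ∪ {w}) * (L ∪ {y})) :=
    (hasLen_one_iff.2 hA).mul (hasLen_one_iff.2 hB)
  exact ⟨_, hasLen_of_absorb h2 hc (Or.inr habs) k hk, hasLen_of_absorb h2 hc (Or.inr habs) m hm⟩

end Torsion

/-! ### The cyclic group of order `5` -/

section Five

theorem dec5 : ∀ T : Finset (ZMod 5), 0 ∈ T → 3 ≤ T.card →
    ∃ b : ZMod 5, ∃ C : Finset (ZMod 5), b ≠ 0 ∧ 0 ∈ C ∧ C ≠ {0} ∧ C ≠ T ∧
      ({0, b} : Finset (ZMod 5)) ≠ T ∧ ({0, b} : Finset (ZMod 5)) + C = T := by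
  decide +kernel

theorem dbl5 : ∀ t : ZMod 5, t + t = 0 → t = 0 := by
  decide +kernel

theorem gen5 : ∀ t s : ZMod 5, t ≠ 0 → ∃ i : Fin 5, (i : ℕ) • t = s := by
  decide +kernel

variable {H : Type u} [Monoid H] (g : ZMod 5 → H) (hg0 : g 0 = 1)
  (hga : ∀ a b, g (a + b) = g a * g b) (hg : Function.Bijective g)

include hg0 hga hg

set_option linter.unusedSectionVars false

theorem g_image_add (S T : Set (ZMod 5)) : g '' (S + T) = g '' S * g '' T := by
  ext x
  constructor
  · rintro ⟨_, ⟨i, hi, j, hj, rfl⟩, rfl⟩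
    exact ⟨g i, ⟨i, hi, rfl⟩, g j, ⟨j, hj, rfl⟩, (hga i j).symm⟩
  · rintro ⟨_, ⟨i, hi, rfl⟩, _, ⟨j, hj, rfl⟩, rfl⟩
    exact ⟨i + j, ⟨i, hi, j, hj, rfl⟩, hga i j⟩

theorem irr_five {A : Set H} (hA : Irr A) : ∃ a : H, a ≠ 1 ∧ A = {1, a} := by
  classical
  set T : Finset (ZMod 5) := Finset.univ.filter (fun t => g t ∈ A) with hT
  have hTA : A = g '' (T : Set (ZMod 5)) := by
    ext x
    constructor
    · intro hx
      obtain ⟨t, rfl⟩ := hg.2 x
      exact ⟨t, by simp [hT, hx], rfl⟩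
    · rintro ⟨t, ht, rfl⟩
      simpa [hT] using ht
  have h0T : (0 : ZMod 5) ∈ T := by simp [hT, hg0, hA.2.1]
  by_cases hcard : 3 ≤ T.card
  · exfalso
    obtain ⟨b, C, hb, hC0, hC1, hCT, hbT, hsum⟩ := dec5 T h0T hcard
    have hdec : A = g '' (({0, b} : Finset (ZMod 5)) : Set (ZMod 5)) * g '' (C : Set (ZMod 5)) := by
      rw [← g_image_add g hg0 hga hg, hTA, ← hsum, Finset.coe_add]
    have hinj := hg.1.image_injective
    have e1 : (1 : H) ∈ g '' (({0, b} : Finset (ZMod 5)) : Set (ZMod 5)) := ⟨0, by simp, hg0⟩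
    have e2 : (1 : H) ∈ g '' (C : Set (ZMod 5)) := ⟨0, by simpa using hC0, hg0⟩
    have hgb : g b ∈ g '' (({0, b} : Finset (ZMod 5)) : Set (ZMod 5)) := ⟨b, by simp, rfl⟩
    have e3 : g '' (({0, b} : Finset (ZMod 5)) : Set (ZMod 5)) ≠ 1 := by
      apply ne_one_of_mem hgb
      intro h
      rw [← hg0] at h
      exact hb (hg.1 h)
    have e4 : g '' (C : Set (ZMod 5)) ≠ 1 := by
      intro h
      apply hC1
      ext t
      rw [Finset.mem_singleton]
      constructor
      · intro ht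
        have : g t ∈ (1 : Set H) := by rw [← h]; exact ⟨t, by simpa using ht, rfl⟩
        rw [Set.mem_one, ← hg0] at this
        exact hg.1 this
      · rintro rfl
        exact hC0
    rcases hA.2.2.2 _ _ e1 e2 hdec e3 e4 with h | h
    · rw [hTA] at h
      exact hbT (Finset.coe_injective (hinj h))
    · rw [hTA] at h
      exact hCT (Finset.coe_injective (hinj h))
  · obtain ⟨x, hx, hx1⟩ := exists_ne_one hA.2.1 hA.2.2.1
    refine ⟨x, hx1, ?_⟩
    obtain ⟨t, rfl⟩ := hg.2 x
    have ht0 : t ≠ 0 := by rintro rfl; exact hx1 hg0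
    have htT : t ∈ T := by simp [hT, hx]
    have hsub : ({0, t} : Finset (ZMod 5)) ⊆ T := by
      intro s hs
      simp only [Finset.mem_insert, Finset.mem_singleton] at hs
      rcases hs with rfl | rfl
      · exact h0T
      · exact htT
    have hc2 : ({0, t} : Finset (ZMod 5)).card = 2 := by
      rw [Finset.card_insert_of_notMem (by simpa using ht0.symm), Finset.card_singleton]
    have heq : ({0, t} : Finset (ZMod 5)) = T :=
      Finset.eq_of_subset_of_card_le hsub (by omega)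
    rw [hTA, ← heq]
    ext y
    simp [Set.mem_image, hg0, eq_comm]

theorem gen_five {a : H} (ha : a ≠ 1) (w : H) : ∃ i : ℕ, a ^ i = w := by
  have hpow : ∀ (i : ℕ) (t : ZMod 5), g (i • t) = g t ^ i := by
    intro i t
    induction i with
    | zero => simp [hg0]
    | succ i ih => rw [succ_nsmul, hga, ih, pow_succ]
  obtain ⟨t, rfl⟩ := hg.2 a
  obtain ⟨s, rfl⟩ := hg.2 w
  have ht0 : t ≠ 0 := by rintro rfl; exact ha hg0
  obtain ⟨i, hi⟩ := gen5 t s ht0
  exact ⟨i, by rw [← hpow, hi]⟩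

theorem card_five : Nat.card H = 5 := by
  rw [← Nat.card_congr (Equiv.ofBijective g hg), Nat.card_eq_fintype_card, ZMod.card]

theorem growth_five {m : ℕ} {X : Set H} (h : HasLen m X) : X = Set.univ ∨ m + 1 ≤ X.ncard := by
  have hfin : Finite H := Finite.of_surjective g hg.2
  induction m generalizing X with
  | zero =>
    right
    rw [show X = 1 from h]
    rw [← Set.singleton_one, Set.ncard_singleton]
  | succ m ih =>
    obtain ⟨A, Y, hA, hY, rfl⟩ := h
    obtain ⟨a, ha, rfl⟩ := irr_five g hg0 hga hg hA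
    have hYs : Y ⊆ {1, a} * Y := subset_mul_right (by simp)
    by_cases hu : ({1, a} : Set H) * Y = Set.univ
    · exact Or.inl hu
    · right
      rcases ih hY with h | h
      · exfalso
        rw [h] at hYs
        exact hu (by rw [h]; exact Set.Subset.antisymm (Set.subset_univ _) hYs)
      · have hne : Y ≠ {1, a} * Y := by
          intro he
          apply hu
          have hpow : ∀ i : ℕ, a ^ i ∈ Y := by
            intro i
            induction i with
            | zero => simpa using hY.fin.2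
            | succ i ih =>
              rw [he, pow_succ']
              exact ⟨a, by simp, _, ih, rfl⟩
          rw [← he]
          apply Set.Subset.antisymm (Set.subset_univ _)
          intro w _
          obtain ⟨i, rfl⟩ := gen_five g hg0 hga hg ha w
          exact hpow i
        have hss : Y ⊂ {1, a} * Y := lt_of_le_of_ne hYs hne
        have := Set.ncard_lt_ncard hss (Set.toFinite _)
        omega

theorem two_five {X : Set H} (h : HasLen 2 X) : X ≠ Set.univ := by
  have hfin : Finite H := Finite.of_surjective g hg.2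
  obtain ⟨A, Y, hA, hY, rfl⟩ := h
  obtain ⟨a, ha, rfl⟩ := irr_five g hg0 hga hg hA
  obtain ⟨b, hb, rfl⟩ := irr_five g hg0 hga hg (hasLen_one_iff.1 hY)
  intro hu
  have h5 : (Set.univ : Set H).ncard = 5 := by
    rw [Set.ncard_univ]; exact card_five g hg0 hga hg
  have hsub : ({1, a} : Set H) * {1, b} ⊆ {1, a, b, a * b} := by
    rintro _ ⟨x, hx, y, hy, rfl⟩
    rcases hx with rfl | hx <;> rcases hy with rfl | hy
    · simp
    · rw [show y = b from hy]; simp
    · rw [show x = a from hx]; simp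
    · rw [show y = b from hy, show x = a from hx]; simp
  have h4 : ({1, a, b, a * b} : Set H).ncard ≤ 4 := by
    refine (Set.ncard_insert_le _ _).trans ?_
    refine Nat.succ_le_succ ((Set.ncard_insert_le _ _).trans ?_)
    refine Nat.succ_le_succ ((Set.ncard_insert_le _ _).trans ?_)
    simp
  have := Set.ncard_le_ncard hsub (Set.toFinite _)
  rw [hu, h5] at this
  omega

theorem three_five (k : ℕ) (hk : 3 ≤ k) : HasLen k (Set.univ : Set H) := by
  obtain ⟨c, hc⟩ : ∃ c : H, c ≠ 1 := ⟨g 1, fun h => by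
    rw [← hg0] at h
    exact absurd (hg.1 h) (by decide)⟩
  have hcc : c * c ≠ 1 := by
    obtain ⟨t, rfl⟩ := hg.2 c
    rw [← hga, ← hg0]
    intro h
    have h1 := hg.1 h
    apply hc
    rw [← hg0]
    congr 1
    exact dbl5 t h1
  have h5 : ∀ i : ℕ, ∃ j : ℕ, j < 5 ∧ c ^ i = c ^ j := by
    intro i
    have hc5 : c ^ 5 = 1 := by
      obtain ⟨t, rfl⟩ := hg.2 c
      have : (g t) ^ 5 = g (t + t + t + t + t) := by
        rw [hga, hga, hga, hga]
        simp only [pow_succ, pow_zero, one_mul]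
      rw [this, show t + t + t + t + t = 0 by clear * -; revert t; decide, hg0]
    refine ⟨i % 5, Nat.mod_lt _ (by norm_num), ?_⟩
    conv_lhs => rw [← Nat.div_add_mod i 5]
    rw [pow_add, pow_mul, hc5, one_pow, one_mul]
  have h3 : HasLen 3 (Set.univ : Set H) := by
    have e : (Set.univ : Set H) = {1, c} * ({1, c} * {1, c * c}) := by
      apply Set.Subset.antisymm _ (Set.subset_univ _)
      intro w _
      obtain ⟨i, rfl⟩ := gen_five g hg0 hga hg hc w
      obtain ⟨j, hj, hij⟩ := h5 i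
      rw [hij]
      have : j = 0 ∨ j = 1 ∨ j = 2 ∨ j = 3 ∨ j = 4 := by omega
      rcases this with rfl | rfl | rfl | rfl | rfl
      · exact ⟨1, by simp, 1, ⟨1, by simp, 1, by simp, by simp⟩, by simp⟩
      · exact ⟨c, by simp, 1, ⟨1, by simp, 1, by simp, by simp⟩, by simp⟩
      · exact ⟨1, by simp, c * c, ⟨1, by simp, c * c, by simp, by simp⟩, by simp [pow_two]⟩
      · exact ⟨c, by simp, c * c, ⟨1, by simp, c * c, by simp, by simp⟩, by
          show c * (c * c) = c ^ 3
          simp [pow_succ, mul_assoc]⟩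
      · exact ⟨c, by simp, c * (c * c), ⟨c, by simp, c * c, by simp, rfl⟩, by
          show c * (c * (c * c)) = c ^ 4
          simp [pow_succ, mul_assoc]⟩
    rw [e]
    exact (hasLen_one_iff.2 (irr_pair hc)).mul ((hasLen_one_iff.2 (irr_pair hc)).mul
      (hasLen_one_iff.2 (irr_pair hcc)))
  exact hasLen_of_absorb h3 hc (Or.inl (Set.Subset.antisymm (Set.subset_univ _)
    (subset_mul_left (by simp)))) k hk

theorem both_five : ∃ X : Set H, HasLen 2 X ∧ HasLen 3 X := by
  obtain ⟨c, hc⟩ : ∃ c : H, c ≠ 1 := ⟨g 1, fun h => by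
    rw [← hg0] at h
    exact absurd (hg.1 h) (by decide)⟩
  have hcc : c * c ≠ 1 := by
    obtain ⟨t, rfl⟩ := hg.2 c
    rw [← hga, ← hg0]
    intro h
    have h1 := hg.1 h
    apply hc
    rw [← hg0]
    congr 1
    exact dbl5 t h1
  refine ⟨{1, c} * {1, c * c}, (hasLen_one_iff.2 (irr_pair hc)).mul
    (hasLen_one_iff.2 (irr_pair hcc)), ?_⟩
  have e : ({1, c} : Set H) * {1, c * c} = {1, c} * ({1, c} * {1, c}) := by
    apply Set.Subset.antisymm
    · rintro _ ⟨x, hx, y, hy, rfl⟩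
      rcases hy with rfl | hy
      · exact ⟨x, hx, 1, ⟨1, by simp, 1, by simp, by simp⟩, by simp⟩
      · rw [show y = c * c from hy]
        exact ⟨x, hx, c * c, ⟨c, by simp, c, by simp, rfl⟩, by simp⟩
    · rintro _ ⟨x, hx, _, ⟨y, hy, z, hz, rfl⟩, rfl⟩
      rcases hy with rfl | hy <;> rcases hz with rfl | hz
      · exact ⟨x, hx, 1, by simp, by simp⟩
      · rw [show z = c from hz]
        rcases hx with rfl | hx
        · exact ⟨c, by simp, 1, by simp, by simp⟩
        · rw [show x = c from hx]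
          exact ⟨1, by simp, c * c, by simp, by simp⟩
      · rw [show y = c from hy]
        rcases hx with rfl | hx
        · exact ⟨c, by simp, 1, by simp, by simp⟩
        · rw [show x = c from hx]
          exact ⟨1, by simp, c * c, by simp, by simp⟩
      · rw [show y = c from hy, show z = c from hz]
        exact ⟨x, hx, c * c, by simp, by simp⟩
  rw [e]
  exact (hasLen_one_iff.2 (irr_pair hc)).mul ((hasLen_one_iff.2 (irr_pair hc)).mul
      (hasLen_one_iff.2 (irr_pair hc)))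

theorem le_three_five {m : ℕ} (h : ∃ X : Set H, HasLen 2 X ∧ HasLen m X) : m ≤ 3 := by
  have hfin : Finite H := Finite.of_surjective g hg.2
  obtain ⟨X, h2, hm⟩ := h
  have hu := two_five g hg0 hga hg h2
  rcases growth_five g hg0 hga hg hm with h | h
  · exact absurd h hu
  · have h5 : (Set.univ : Set H).ncard = 5 := by
      rw [Set.ncard_univ]; exact card_five g hg0 hga hg
    have hss : X ⊂ Set.univ := lt_of_le_of_ne (Set.subset_univ _) hu
    have := Set.ncard_lt_ncard hss (Set.toFinite _)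
    omega

end Five

/-! ### The theorem -/

section Main

variable {H : Type u} [Monoid H]

/-- In case B, outside the cyclic group of order five, all lengths occur together. -/
theorem caseB_all (hB : ∀ x : H, x ≠ 1 → x * x ≠ 1 ∧ x * x ≠ x) (hne : ∃ x : H, x ≠ 1)
    (h5 : ¬ Nonempty (H ≃* Multiplicative (ZMod 5))) {k m : ℕ} (hk : 2 ≤ k) (hm : 2 ≤ m) :
    ∃ X : Set H, HasLen k X ∧ HasLen m X := by
  by_cases hinf : ∃ x : H, Function.Injective (fun n : ℕ => x ^ n)
  · obtain ⟨x, hx⟩ := hinf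
    exact all_of_infinite x hx hk hm
  push Not at hinf
  have hT : ∀ x : H, 0 < orderOf x ∧ orderOf x % 2 = 1 := fun x =>
    odd_order hB x (exists_pow_eq_one hB x (hinf x))
  by_cases h7 : ∃ x : H, 7 ≤ orderOf x
  · obtain ⟨x, hx⟩ := h7
    exact all_of_seven x hx (hT x).2 hk hm
  by_cases h3 : ∃ x : H, orderOf x = 3
  · obtain ⟨x, hx⟩ := h3
    exact all_of_three x hx hk hm
  push Not at h7 h3
  have hord : ∀ x : H, x ≠ 1 → orderOf x = 5 := by
    intro x hx
    have h1 := hT x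
    have h2 := h7 x
    have h3 := h3 x
    have h4 : orderOf x ≠ 1 := fun h => hx (orderOf_eq_one_iff.1 h)
    omega
  by_cases hp : ∃ c w : H, (∀ i : ℕ, c ^ i ≠ w) ∧ (∀ i : ℕ, w ^ i ≠ c)
  · obtain ⟨c, w, h1, h2⟩ := hp
    exact all_of_pair hT h1 h2 hk hm
  exfalso
  apply h5
  push Not at hp
  obtain ⟨c, hc⟩ := hne
  have hc5 := hord c hc
  have hgen : ∀ w : H, ∃ i : ℕ, c ^ i = w := by
    intro w
    by_cases hw : w = 1
    · exact ⟨0, by simp [hw]⟩
    by_contra hcon
    push Not at hcon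
    obtain ⟨i, hi⟩ := hp c w hcon
    -- `w ^ i = c`
    have hw5 := hord w hw
    have hwi : w ^ (i % 5) = c := by rw [← hi, ← hw5]; exact pow_mod_orderOf w i
    have hi5 : i % 5 < 5 := Nat.mod_lt _ (by norm_num)
    have hw55 : w ^ 5 = 1 := by rw [← hw5]; exact pow_orderOf_eq_one w
    have hcases : i % 5 = 0 ∨ i % 5 = 1 ∨ i % 5 = 2 ∨ i % 5 = 3 ∨ i % 5 = 4 := by omega
    rcases hcases with h | h | h | h | h <;> rw [h] at hwi
    · exact hc (by rw [← hwi, pow_zero])
    · exact hcon 1 (by rw [← hwi]; simp)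
    · refine hcon 3 ?_
      rw [← hwi, ← pow_mul, show 2 * 3 = 5 + 1 by norm_num, pow_add, hw55, one_mul, pow_one]
    · refine hcon 2 ?_
      rw [← hwi, ← pow_mul, show 3 * 2 = 5 + 1 by norm_num, pow_add, hw55, one_mul, pow_one]
    · refine hcon 4 ?_
      rw [← hwi, ← pow_mul, show 4 * 4 = 5 * 3 + 1 by norm_num, pow_add, pow_mul, hw55, one_pow,
        one_mul, pow_one]
  let f : Multiplicative (ZMod 5) →* H :=
    { toFun := fun t => c ^ (Multiplicative.toAdd t).val
      map_one' := by simp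
      map_mul' := by
        intro a b
        rw [toAdd_mul, ZMod.val_add, ← pow_add]
        have := pow_mod_orderOf c ((Multiplicative.toAdd a).val + (Multiplicative.toAdd b).val)
        rwa [hc5] at this }
  have hf : Function.Bijective f := by
    constructor
    · intro a b hab
      have h1 := pow_inj_order c (by rw [hc5]; exact ZMod.val_lt _)
        (by rw [hc5]; exact ZMod.val_lt _) (show c ^ (Multiplicative.toAdd a).val =
          c ^ (Multiplicative.toAdd b).val from hab)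
      have h2 := ZMod.val_injective 5 h1
      exact Multiplicative.toAdd.injective h2
    · intro w
      obtain ⟨i, rfl⟩ := hgen w
      refine ⟨Multiplicative.ofAdd (i : ZMod 5), ?_⟩
      show c ^ (i : ZMod 5).val = c ^ i
      rw [ZMod.val_natCast]
      have := pow_mod_orderOf c i
      rwa [hc5] at this
  exact ⟨(MulEquiv.ofBijective f hf).symm⟩

/-- **Q1**: all unions of length sets of all reduced finitary power monoids are intervals, and their
exact values. -/
theorem result (H : Type u) [Monoid H] :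
    (∀ k : ℕ, 1 ≤ k → IsInterval (UnionLengths (ReducedPower H) k)) ∧
    (Subsingleton H → ∀ k : ℕ, 1 ≤ k → UnionLengths (ReducedPower H) k = ∅) ∧
    ((∃ x : H, x ≠ 1 ∧ (x * x = 1 ∨ x * x = x)) →
      ∀ k : ℕ, 1 ≤ k → UnionLengths (ReducedPower H) k = {m | 1 ≤ m}) ∧
    (Nontrivial H → (¬ ∃ x : H, x ≠ 1 ∧ (x * x = 1 ∨ x * x = x)) →
      UnionLengths (ReducedPower H) 1 = {1} ∧
      (¬ Nonempty (H ≃* Multiplicative (ZMod 5)) →
        ∀ k : ℕ, 2 ≤ k → UnionLengths (ReducedPower H) k = {m | 2 ≤ m}) ∧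
      (Nonempty (H ≃* Multiplicative (ZMod 5)) →
        UnionLengths (ReducedPower H) 2 = {2, 3} ∧
        UnionLengths (ReducedPower H) 3 = {m | 2 ≤ m} ∧
        ∀ k : ℕ, 4 ≤ k → UnionLengths (ReducedPower H) k = {m | 3 ≤ m})) := by
  have hA : Subsingleton H → ∀ k : ℕ, 1 ≤ k → UnionLengths (ReducedPower H) k = ∅ := by
    intro hs k hk
    ext m
    rw [mem_union_iff]
    simp only [Set.mem_empty_iff_false, iff_false]
    rintro ⟨X, h1, h2⟩
    obtain ⟨j, rfl⟩ : ∃ j, k = j + 1 := ⟨k - 1, by omega⟩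
    apply hasLen_ne_one h1
    apply eq_one_of_subset h1.fin.2
    intro x _
    rw [Set.mem_one]
    exact Subsingleton.elim _ _
  have hC : (∃ x : H, x ≠ 1 ∧ (x * x = 1 ∨ x * x = x)) →
      ∀ k : ℕ, 1 ≤ k → UnionLengths (ReducedPower H) k = {m | 1 ≤ m} :=
    fun h k hk => union_caseA h hk
  have hD : (Nontrivial H → (¬ ∃ x : H, x ≠ 1 ∧ (x * x = 1 ∨ x * x = x)) →
      UnionLengths (ReducedPower H) 1 = {1} ∧
      (¬ Nonempty (H ≃* Multiplicative (ZMod 5)) →
        ∀ k : ℕ, 2 ≤ k → UnionLengths (ReducedPower H) k = {m | 2 ≤ m}) ∧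
      (Nonempty (H ≃* Multiplicative (ZMod 5)) →
        UnionLengths (ReducedPower H) 2 = {2, 3} ∧
        UnionLengths (ReducedPower H) 3 = {m | 2 ≤ m} ∧
        ∀ k : ℕ, 4 ≤ k → UnionLengths (ReducedPower H) k = {m | 3 ≤ m})) := by
    intro hn hno
    have hne : ∃ x : H, x ≠ 1 := exists_ne 1
    have hB : ∀ x : H, x ≠ 1 → x * x ≠ 1 ∧ x * x ≠ x := fun x hx =>
      ⟨fun h => hno ⟨x, hx, Or.inl h⟩, fun h => hno ⟨x, hx, Or.inr h⟩⟩
    refine ⟨union_one hB hne, ?_, ?_⟩
    · intro h5 k hk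
      exact union_of_all hB hk fun m hm => caseB_all hB hne h5 hk hm
    · rintro ⟨e⟩
      set g : ZMod 5 → H := fun t => e.symm (Multiplicative.ofAdd t) with hgdef
      have hg0 : g 0 = 1 := by simp [hgdef]
      have hga : ∀ a b, g (a + b) = g a * g b := by
        intro a b
        simp [hgdef]
      have hg : Function.Bijective g := e.symm.bijective.comp Multiplicative.ofAdd.bijective
      refine ⟨?_, ?_, ?_⟩
      · ext m
        rw [mem_union_iff]
        constructor
        · intro h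
          have h1 := two_le_of_mem hB le_rfl h
          have h2 := le_three_five g hg0 hga hg h
          have : m = 2 ∨ m = 3 := by omega
          simpa using this
        · intro h
          have h : m = 2 ∨ m = 3 := by simpa using h
          obtain ⟨X, h2, h3⟩ := both_five g hg0 hga hg
          rcases h with rfl | rfl
          · exact ⟨X, h2, h2⟩
          · exact ⟨X, h2, h3⟩
      · apply union_of_all hB (by norm_num)
        intro m hm
        by_cases hm2 : m = 2
        · subst hm2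
          obtain ⟨X, h2, h3⟩ := both_five g hg0 hga hg
          exact ⟨X, h3, h2⟩
        · exact ⟨Set.univ, three_five g hg0 hga hg 3 le_rfl,
            three_five g hg0 hga hg m (by omega)⟩
      · intro k hk
        ext m
        rw [mem_union_iff]
        constructor
        · intro h
          have h1 := two_le_of_mem hB (by omega) h
          have h2 : m ≠ 2 := by
            rintro rfl
            obtain ⟨X, h3, h4⟩ := h
            have := le_three_five g hg0 hga hg ⟨X, h4, h3⟩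
            omega
          show 3 ≤ m
          omega
        · intro hm
          have hm : 3 ≤ m := hm
          exact ⟨Set.univ, three_five g hg0 hga hg k (by omega), three_five g hg0 hga hg m hm⟩
  refine ⟨?_, hA, hC, hD⟩
  intro k hk
  have hint : ∀ a : ℕ, IsInterval {m | a ≤ m} := by
    intro a
    refine ⟨a, ⊤, ?_⟩
    ext m
    simp
  rcases subsingleton_or_nontrivial H with hs | hn
  · rw [hA hs k hk]
    refine ⟨1, 0, ?_⟩
    ext m
    simp only [Set.mem_empty_iff_false, Set.mem_ofPred_eq, false_iff, not_and, not_le]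
    intro h
    exact lt_of_lt_of_le (by norm_num) h
  · by_cases hc : ∃ x : H, x ≠ 1 ∧ (x * x = 1 ∨ x * x = x)
    · rw [hC hc k hk]
      exact hint 1
    · obtain ⟨h1, h2, h3⟩ := hD hn hc
      by_cases hk1 : k = 1
      · subst hk1
        rw [h1]
        refine ⟨1, 1, ?_⟩
        ext m
        simp only [Set.mem_singleton_iff, Set.mem_ofPred_eq]
        constructor
        · rintro rfl; simp
        · rintro ⟨ha, hb⟩
          exact_mod_cast le_antisymm hb ha
      · by_cases h5 : Nonempty (H ≃* Multiplicative (ZMod 5))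
        · obtain ⟨h4, h5, h6⟩ := h3 h5
          rcases (by omega : k = 2 ∨ k = 3 ∨ 4 ≤ k) with rfl | rfl | hk4
          · rw [h4]
            refine ⟨2, 3, ?_⟩
            ext m
            simp only [Set.mem_insert_iff, Set.mem_singleton_iff, Set.mem_ofPred_eq]
            constructor
            · rintro (rfl | rfl) <;> constructor <;> norm_num
            · rintro ⟨ha, hb⟩
              have ha : 2 ≤ m := by exact_mod_cast ha
              have hb : m ≤ 3 := by exact_mod_cast hb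
              omega
          · rw [h5]; exact hint 2
          · rw [h6 k hk4]; exact hint 3
        · rw [h2 h5 k (by omega)]
          exact hint 2

end Main

end Pool.Agent.Results.MP_43520b_al.Intervals
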